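import Mathlib
import Pool.Agent.H316R3.NL.Basic

/-!
# A summable counterexample for the nonlocal difference-quotient functional
-/

set_option autoImplicit false

open MeasureTheory Set Filter Topology
open scoped ENNReal

namespace Pool.Agent.Results.MP_1dbcb3_an.SummableCounterexample

open Pool.Agent.H316R3.NL

/-- The functional `F_ω(u,(a,b)) = ∬_{(a,b)²} ω(|u(y)-u(x)|/|y-x|) dx dy / |y-x|`. -/
noncomputable def F (ω : ℝ → ℝ) (v : ℝ → ℝ) (a b : ℝ) : ℝ≥0∞ :=
  ∫⁻ x in Ioo a b, ∫⁻ y in Ioo a b, ENNReal.ofReal (ω (|v y - v x| / |y - x|) / |y - x|)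

/-- the weight -/
noncomputable def om (t : ℝ) : ℝ := Real.exp (-4) * min t (Real.exp (-2 * t)) + 9 * Metric.infDist t Z

lemma zero_mem_Z : (0 : ℝ) ∈ Z := by
  simp only [Z, mem_compl_iff, mem_iUnion, not_exists, mem_Ioo, not_and, not_lt]
  intro j hj
  linarith [a_pos j]

lemma continuous_om : Continuous om := by
  unfold om
  have : Continuous fun t => Metric.infDist t Z := Metric.continuous_infDist_pt Z
  fun_prop

lemma om_nonneg (t : ℝ) (ht : 0 ≤ t) : 0 ≤ om t := by
  unfold om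
  have h1 : 0 ≤ min t (Real.exp (-2 * t)) := le_min ht (Real.exp_pos _).le
  have h2 : 0 ≤ Metric.infDist t Z := Metric.infDist_nonneg
  positivity

lemma om_pos (t : ℝ) (ht : 0 < t) : 0 < om t := by
  unfold om
  have h1 : 0 < min t (Real.exp (-2 * t)) := lt_min ht (Real.exp_pos _)
  have h2 : 0 ≤ Metric.infDist t Z := Metric.infDist_nonneg
  positivity

lemma om_zero : om 0 = 0 := by
  unfold om
  rw [Metric.infDist_zero_of_mem zero_mem_Z]
  simp

lemma om_window (k : ℕ) (t : ℝ) (ht : t ∈ Icc (2 * a k) (3 * a k)) : 1 / a k ≤ om t / t ^ 2 := by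
  have ha := a_pos k
  have h1 : a k ≤ Metric.infDist t Z := by
    rw [Metric.le_infDist ⟨0, zero_mem_Z⟩]
    intro y hy
    simp only [Z, mem_compl_iff, mem_iUnion, not_exists, mem_Ioo, not_and, not_lt] at hy
    by_cases h : a k < y
    · have := hy k h
      rw [Real.dist_eq, abs_sub_comm, le_abs]
      left; linarith [ht.2]
    · rw [Real.dist_eq, le_abs]
      left; linarith [ht.1]
  have ht0 : 0 < t := by linarith [ht.1]
  have h2 : 9 * a k ≤ om t := by
    unfold om
    have h3 : 0 ≤ min t (Real.exp (-2 * t)) := le_min ht0.le (Real.exp_pos _).le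
    have h4 : 0 ≤ Real.exp (-4) * min t (Real.exp (-2 * t)) := by positivity
    linarith
  rw [div_le_div_iff₀ ha (by positivity)]
  have h5 : t ^ 2 ≤ (3 * a k) ^ 2 := pow_le_pow_left₀ ht0.le ht.2 2
  nlinarith

lemma integral_condition : ∫⁻ t in Ioi (1 : ℝ), ENNReal.ofReal (om t / t ^ 2) = ∞ := by
  have ha1 : ∀ k, 1 < 2 * a k := fun k => by linarith [half_U_le_a k, U_four k]
  have hdisj : Pairwise (Function.onFun Disjoint fun k => Ioo (2 * a k) (3 * a k)) := by
    intro i j hij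
    rw [Function.onFun, Set.disjoint_left]
    intro t hi hj
    rcases lt_or_gt_of_ne hij with h | h
    · have h1 := a_mono (Nat.succ_le_of_lt h)
      have h2 := a_succ i
      have := a_pos i
      have := a_pos j
      linarith [hi.2, hj.1]
    · have h1 := a_mono (Nat.succ_le_of_lt h)
      have h2 := a_succ j
      have := a_pos i
      have := a_pos j
      linarith [hi.1, hj.2]
  have hsub : (⋃ k, Ioo (2 * a k) (3 * a k)) ⊆ Ioi (1 : ℝ) := by
    apply iUnion_subset
    intro k t ht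
    exact lt_trans (ha1 k) ht.1
  have h1 : ∫⁻ t in (⋃ k, Ioo (2 * a k) (3 * a k)), ENNReal.ofReal (om t / t ^ 2)
      ≤ ∫⁻ t in Ioi (1 : ℝ), ENNReal.ofReal (om t / t ^ 2) := lintegral_mono_set hsub
  rw [lintegral_iUnion (fun k => measurableSet_Ioo) hdisj] at h1
  have h2 : ∀ k, (1 : ℝ≥0∞) ≤ ∫⁻ t in Ioo (2 * a k) (3 * a k), ENNReal.ofReal (om t / t ^ 2) := by
    intro k
    calc (1 : ℝ≥0∞) = ENNReal.ofReal (1 / a k) * volume (Ioo (2 * a k) (3 * a k)) := by
          rw [Real.volume_Ioo, ← ENNReal.ofReal_mul (by have := a_pos k; positivity)]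
          have := (a_pos k).ne'
          rw [show 1 / a k * (3 * a k - 2 * a k) = 1 by field_simp; norm_num]
          simp
      _ = ∫⁻ t in Ioo (2 * a k) (3 * a k), ENNReal.ofReal (1 / a k) := by
          rw [setLIntegral_const]
      _ ≤ _ := by
          apply setLIntegral_mono' measurableSet_Ioo
          intro t ht
          exact ENNReal.ofReal_le_ofReal (om_window k t ⟨ht.1.le, ht.2.le⟩)
  have h3 : (∞ : ℝ≥0∞) ≤ ∑' k, ∫⁻ t in Ioo (2 * a k) (3 * a k), ENNReal.ofReal (om t / t ^ 2) := by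
    calc (∞ : ℝ≥0∞) = ∑' _ : ℕ, (1 : ℝ≥0∞) := (ENNReal.tsum_const_eq_top_of_ne_zero one_ne_zero).symm
      _ ≤ _ := ENNReal.tsum_le_tsum h2
  exact top_le_iff.1 (h3.trans h1)

lemma card_B (k : ℕ) : (B k).card ≤ 3 ^ k := by
  induction k with
  | zero => simp [B]
  | succ k ih =>
    simp only [B]
    calc _ ≤ (B k ∪ (B k).image (fun b => b + r k)).card + ((B k).image (fun b => b - r k)).card :=
          Finset.card_union_le _ _
      _ ≤ (B k).card + ((B k).image (fun b => b + r k)).card + ((B k).image (fun b => b - r k)).card :=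
          Nat.add_le_add_right (Finset.card_union_le _ _) _
      _ ≤ (B k).card + (B k).card + (B k).card :=
          Nat.add_le_add (Nat.add_le_add_left Finset.card_image_le _) Finset.card_image_le
      _ ≤ 3 ^ (k + 1) := by rw [pow_succ]; omega

lemma volume_G (k : ℕ) : volume (G k) ≤ ENNReal.ofReal (2 * 3 ^ k * r k) := by
  have hr := r_pos k
  calc volume (G k) ≤ ∑ b ∈ B k, volume (Ioo (b - r k) (b + r k)) := by
        unfold G; exact measure_biUnion_finset_le _ _
    _ = ∑ b ∈ B k, ENNReal.ofReal (2 * r k) := by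
        refine Finset.sum_congr rfl fun b _ => ?_
        rw [Real.volume_Ioo]; congr 1; ring
    _ = ((B k).card : ℝ≥0∞) * ENNReal.ofReal (2 * r k) := by rw [Finset.sum_const, nsmul_eq_mul]
    _ ≤ ((3 ^ k : ℕ) : ℝ≥0∞) * ENNReal.ofReal (2 * r k) := by
        gcongr
        exact card_B k
    _ = ENNReal.ofReal (2 * 3 ^ k * r k) := by
        rw [← ENNReal.ofReal_natCast, ← ENNReal.ofReal_mul (by positivity)]
        congr 1
        push_cast
        ring

lemma r_le (k : ℕ) : r k ≤ 2 / U k ^ 2 := by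
  have hU := U_pos k
  have h1 := Real.quadratic_le_exp_of_nonneg hU.le
  unfold r
  rw [Real.exp_neg, inv_eq_one_div, div_le_div_iff₀ (Real.exp_pos _) (by positivity)]
  nlinarith

lemma vol_bound (k : ℕ) : 2 * 3 ^ k * r k ≤ 1 / 4 * (3 / 16 : ℝ) ^ k := by
  have hU := U_ge k
  have hU0 := U_pos k
  have h1 : r k ≤ 2 / (4 ^ (k + 1)) ^ 2 := by
    refine (r_le k).trans ?_
    gcongr
  calc 2 * 3 ^ k * r k ≤ 2 * 3 ^ k * (2 / (4 ^ (k + 1)) ^ 2) := by gcongr
    _ = 1 / 4 * (3 / 16 : ℝ) ^ k := by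
        rw [div_pow, ← pow_mul, mul_comm (k + 1) 2, pow_mul, pow_succ]
        norm_num
        field_simp
        ring

lemma term_bound (α : ℝ) (h0 : 0 < α) (h1 : α < 1) (k : ℕ) :
    U (k + 1) ^ α * (2 * 3 ^ k * r k) ≤ 3 / (1 - α) ^ 3 * (3 / 16 : ℝ) ^ k := by
  have hU := U_ge k
  have hV := U_pos k
  set V := U k with hVdef
  have hb : 0 < 1 - α := by linarith
  have e1 : U (k + 1) ^ α = (4 * V) ^ α * Real.exp (V * α) := by
    rw [show U (k + 1) = 4 * V * Real.exp V from rfl, Real.mul_rpow (by positivity) (Real.exp_pos _).le,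
      ← Real.exp_mul]
  have e2 : (4 * V) ^ α ≤ 4 * V := by
    calc (4 * V) ^ α ≤ (4 * V) ^ (1 : ℝ) := by
          apply Real.rpow_le_rpow_of_exponent_le _ h1.le
          have := U_four k
          linarith
      _ = 4 * V := Real.rpow_one _
  have e3 : Real.exp (V * α) * r k = Real.exp (-((1 - α) * V)) := by
    unfold r
    rw [← Real.exp_add, ← hVdef]
    congr 1; ring
  have e4 : Real.exp (-((1 - α) * V)) ≤ 6 / ((1 - α) * V) ^ 3 := by
    have h2 := Real.pow_div_factorial_le_exp ((1 - α) * V) (by positivity) 3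
    have h3 : ((3 : ℕ).factorial : ℝ) = 6 := by norm_num [Nat.factorial]
    rw [h3] at h2
    rw [Real.exp_neg, inv_eq_one_div, div_le_div_iff₀ (Real.exp_pos _) (by positivity)]
    rw [div_le_iff₀ (by norm_num)] at h2
    linarith
  calc U (k + 1) ^ α * (2 * 3 ^ k * r k) = (4 * V) ^ α * (2 * 3 ^ k) * (Real.exp (V * α) * r k) := by
        rw [e1]; ring
    _ ≤ (4 * V) * (2 * 3 ^ k) * (6 / ((1 - α) * V) ^ 3) := by
        rw [e3]; gcongr
    _ = 48 * 3 ^ k / (1 - α) ^ 3 / V ^ 2 := by field_simp; ring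
    _ ≤ 48 * 3 ^ k / (1 - α) ^ 3 / (4 ^ (k + 1)) ^ 2 := by gcongr
    _ = 3 / (1 - α) ^ 3 * (3 / 16 : ℝ) ^ k := by
        rw [div_pow, ← pow_mul, mul_comm (k + 1) 2, pow_mul, pow_succ]
        norm_num
        field_simp
        ring

lemma summable_geo (c : ℝ) : Summable fun k : ℕ => c * (3 / 16 : ℝ) ^ k :=
  (summable_geometric_of_lt_one (by norm_num) (by norm_num)).mul_left c

lemma tsum_volume_G : ∑' k, volume (G k) ≤ ENNReal.ofReal (4 / 13) := by
  calc ∑' k, volume (G k) ≤ ∑' k : ℕ, ENNReal.ofReal (1 / 4 * (3 / 16 : ℝ) ^ k) :=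
        ENNReal.tsum_le_tsum fun k => (volume_G k).trans (ENNReal.ofReal_le_ofReal (vol_bound k))
    _ = ENNReal.ofReal (∑' k : ℕ, 1 / 4 * (3 / 16 : ℝ) ^ k) :=
        (ENNReal.ofReal_tsum_of_nonneg (fun k => by positivity) (summable_geo _)).symm
    _ = ENNReal.ofReal (4 / 13) := by
        rw [tsum_mul_left, tsum_geometric_of_lt_one (by norm_num) (by norm_num)]
        norm_num

lemma ae_good : ∀ᵐ x : ℝ, ∃ N, ∀ j, N ≤ j → x ∉ G j := by
  have h : ∑' k, volume (G k) ≠ ∞ := (tsum_volume_G.trans_lt ENNReal.ofReal_lt_top).ne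
  filter_upwards [ae_eventually_notMem h] with x hx
  exact eventually_atTop.1 hx

/-- the integrand is at most `1` -/
lemma integrand_le {x y : ℝ} (hx : ∃ N, ∀ j, N ≤ j → x ∉ G j) (hy : ∃ N, ∀ j, N ≤ j → y ∉ G j)
    (hx1 : x ∈ Ioo (0 : ℝ) 1) (hy1 : y ∈ Ioo (0 : ℝ) 1) :
    om (|u y - u x| / |y - x|) / |y - x| ≤ 1 := by
  by_cases h : u x = u y
  · rw [h, sub_self, abs_zero, zero_div, om_zero, zero_div]; norm_num
  · have hd : |y - x| ≤ 1 := by rw [abs_le]; constructor <;> linarith [hx1.1, hx1.2, hy1.1, hy1.2]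
    obtain ⟨K, h1, h2, h3⟩ := quotient hx hy hd h
    have hr := r_pos K
    have hpos : 0 < |y - x| := by linarith
    set q := |u y - u x| / |y - x| with hq
    have hq0 : 0 ≤ q := by positivity
    have e1 : om q = Real.exp (-4) * min q (Real.exp (-2 * q)) := by
      unfold om; rw [Metric.infDist_zero_of_mem h2]; ring
    have e2 : om q ≤ r K := by
      rw [e1]
      rcases h3 with h0 | h3
      · subst h0
        calc Real.exp (-4) * min q (Real.exp (-2 * q)) ≤ Real.exp (-4) * 1 := by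
              gcongr
              refine (min_le_right _ _).trans ?_
              rw [Real.exp_le_one_iff]; linarith
          _ = r 0 := by rw [mul_one]; rfl
      · calc Real.exp (-4) * min q (Real.exp (-2 * q)) ≤ 1 * Real.exp (-2 * q) := by
              gcongr
              · rw [Real.exp_le_one_iff]; norm_num
              · exact min_le_right _ _
          _ ≤ r K := by
              rw [one_mul]; unfold r
              apply Real.exp_le_exp.2
              linarith
    rw [div_le_one hpos]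
    linarith

lemma F_lt : F om u 0 1 < ∞ := by
  have h1 : F om u 0 1 ≤ ∫⁻ x in Ioo (0 : ℝ) 1, ∫⁻ y in Ioo (0 : ℝ) 1, 1 := by
    unfold F
    apply lintegral_mono_ae
    filter_upwards [ae_restrict_of_ae ae_good, ae_restrict_mem measurableSet_Ioo] with x hx hx1
    apply lintegral_mono_ae
    filter_upwards [ae_restrict_of_ae ae_good, ae_restrict_mem measurableSet_Ioo] with y hy hy1
    calc ENNReal.ofReal (om (|u y - u x| / |y - x|) / |y - x|) ≤ ENNReal.ofReal 1 :=
          ENNReal.ofReal_le_ofReal (integrand_le hx hy hx1 hy1)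
      _ = 1 := ENNReal.ofReal_one
  refine h1.trans_lt ?_
  simp

lemma Lp_lt (α : ℝ) (h0 : 0 < α) (h1 : α < 1) :
    ∫⁻ x in Ioo (0 : ℝ) 1, ENNReal.ofReal (|u x| ^ α) < ∞ := by
  have hpt : ∀ x : ℝ, (∃ N, ∀ j, N ≤ j → x ∉ G j) → ENNReal.ofReal (|u x| ^ α) ≤
      ENNReal.ofReal (4 ^ α) + ∑' k, (G k).indicator (fun _ => ENNReal.ofReal (U (k + 1) ^ α)) x := by
    rintro x ⟨N, hN⟩
    rw [u_eq hN, abs_of_nonneg (uk_nonneg N x)]
    have : ∀ n, ENNReal.ofReal (uk n x ^ α) ≤ ENNReal.ofReal (4 ^ α) +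
        ∑ k ∈ Finset.range n, (G k).indicator (fun _ => ENNReal.ofReal (U (k + 1) ^ α)) x := by
      intro n
      induction n with
      | zero =>
        simp only [Finset.range_zero, Finset.sum_empty, add_zero]
        apply ENNReal.ofReal_le_ofReal
        apply Real.rpow_le_rpow (uk_nonneg 0 x) _ h0.le
        exact uk_le 0 x
      | succ n ih =>
        rw [Finset.sum_range_succ]
        by_cases hx : x ∈ G n
        · have e : uk (n + 1) x = U (n + 1) := by simp only [uk, if_pos hx]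
          rw [e, indicator_of_mem hx, ← add_assoc]
          exact le_add_self
        · have e : uk (n + 1) x = uk n x := by simp only [uk, if_neg hx]
          rw [e, indicator_of_notMem hx, add_zero]
          exact ih
    refine (this N).trans ?_
    gcongr
    exact ENNReal.sum_le_tsum _
  calc ∫⁻ x in Ioo (0 : ℝ) 1, ENNReal.ofReal (|u x| ^ α)
      ≤ ∫⁻ x in Ioo (0 : ℝ) 1, (ENNReal.ofReal (4 ^ α) +
        ∑' k, (G k).indicator (fun _ => ENNReal.ofReal (U (k + 1) ^ α)) x) := by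
        apply lintegral_mono_ae
        filter_upwards [ae_restrict_of_ae ae_good] with x hx
        exact hpt x hx
    _ = ENNReal.ofReal (4 ^ α) + ∑' k, ∫⁻ x in Ioo (0 : ℝ) 1,
        (G k).indicator (fun _ => ENNReal.ofReal (U (k + 1) ^ α)) x := by
        rw [lintegral_add_left measurable_const, lintegral_tsum]
        · simp
        · intro k
          exact (measurable_const.indicator (measurableSet_G k)).aemeasurable
    _ ≤ ENNReal.ofReal (4 ^ α) + ∑' k : ℕ, ENNReal.ofReal (3 / (1 - α) ^ 3 * (3 / 16 : ℝ) ^ k) := by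
        gcongr with k
        calc ∫⁻ x in Ioo (0 : ℝ) 1, (G k).indicator (fun _ => ENNReal.ofReal (U (k + 1) ^ α)) x
            ≤ ∫⁻ x, (G k).indicator (fun _ => ENNReal.ofReal (U (k + 1) ^ α)) x :=
              setLIntegral_le_lintegral _ _
          _ = ENNReal.ofReal (U (k + 1) ^ α) * volume (G k) := by
              rw [lintegral_indicator_const (measurableSet_G k)]
          _ ≤ ENNReal.ofReal (U (k + 1) ^ α) * ENNReal.ofReal (2 * 3 ^ k * r k) := by
              gcongr; exact volume_G k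
          _ = ENNReal.ofReal (U (k + 1) ^ α * (2 * 3 ^ k * r k)) := by
              rw [← ENNReal.ofReal_mul (Real.rpow_nonneg (U_pos _).le _)]
          _ ≤ _ := ENNReal.ofReal_le_ofReal (term_bound α h0 h1 k)
    _ < ∞ := by
        apply ENNReal.add_lt_top.2 ⟨ENNReal.ofReal_lt_top, ?_⟩
        exact (summable_geo _).tsum_ofReal_lt_top

lemma not_const : ¬ ∃ c : ℝ, ∀ᵐ x ∂(volume.restrict (Ioo (0 : ℝ) 1)), u x = c := by
  rintro ⟨c, hc⟩
  rw [ae_restrict_iff' measurableSet_Ioo] at hc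
  set T : Set ℝ := {x | ¬ (x ∈ Ioo (0 : ℝ) 1 → u x = c)} with hT
  have hT0 : volume T = 0 := hc
  have hS : volume (⋃ k, G k) ≤ ENNReal.ofReal (4 / 13) := (measure_iUnion_le _).trans tsum_volume_G
  have key : ∀ p q : ℝ, q - p = 1 / 2 → ∃ x ∈ Ioo p q, x ∉ (⋃ k, G k) ∧ x ∉ T := by
    intro p q hpq
    by_contra hcon
    push Not at hcon
    have hsub : Ioo p q ⊆ (⋃ k, G k) ∪ T := by
      intro x hx
      by_cases h : x ∈ ⋃ k, G k
      · exact Or.inl h
      · exact Or.inr (hcon x hx h)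
    have h1 := (measure_mono (μ := volume) hsub).trans (measure_union_le _ _)
    rw [hT0, add_zero, Real.volume_Ioo, hpq] at h1
    have h2 := h1.trans hS
    rw [ENNReal.ofReal_le_ofReal_iff (by norm_num)] at h2
    norm_num at h2
  obtain ⟨x, hx, hxG, hxT⟩ := key 0 (1 / 2) (by norm_num)
  obtain ⟨y, hy, hyG, hyT⟩ := key (1 / 2) 1 (by norm_num)
  simp only [mem_iUnion, not_exists] at hxG hyG
  have hux : u x = c := by
    simp only [hT, mem_ofPred_eq, not_not] at hxT
    exact hxT ⟨hx.1, by linarith [hx.2]⟩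
  have huy : u y = c := by
    simp only [hT, mem_ofPred_eq, not_not] at hyT
    exact hyT ⟨by linarith [hy.1], hy.2⟩
  rw [u_eq (N := 0) fun j _ => hxG j] at hux
  rw [u_eq (N := 0) fun j _ => hyG j] at huy
  simp only [uk, if_pos hx.2] at hux
  simp only [uk, if_neg (not_lt.2 hy.1.le)] at huy
  linarith

/-- **Answer to Q1 (negative).** There are a continuous `ω : [0,∞) → [0,∞)` with `ω(0) = 0`,
`ω > 0` on `(0,∞)` and `∫_1^∞ ω(μ)/μ² dμ = ∞`, and a measurable `v` that is not almost everywhere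
constant on `(0,1)`, has `∫_0^1 |v|^α < ∞` for every `0 < α < 1`, and has `F_ω(v,(0,1)) < ∞`. -/
theorem result : ∃ ω : ℝ → ℝ, ContinuousOn ω (Ici 0) ∧ (∀ t, 0 ≤ t → 0 ≤ ω t) ∧ ω 0 = 0 ∧
    (∀ t, 0 < t → 0 < ω t) ∧ ∫⁻ t in Ioi (1 : ℝ), ENNReal.ofReal (ω t / t ^ 2) = ∞ ∧
    ∃ v : ℝ → ℝ, Measurable v ∧
      (¬ ∃ c : ℝ, ∀ᵐ x ∂(volume.restrict (Ioo (0 : ℝ) 1)), v x = c) ∧
      (∀ α : ℝ, 0 < α → α < 1 → ∫⁻ x in Ioo (0 : ℝ) 1, ENNReal.ofReal (|v x| ^ α) < ∞) ∧
      F ω v 0 1 < ∞ :=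
  ⟨om, continuous_om.continuousOn, om_nonneg, om_zero, om_pos, integral_condition, u,
    measurable_u, not_const, Lp_lt, F_lt⟩

end Pool.Agent.Results.MP_1dbcb3_an.SummableCounterexample
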